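import Pool.Agent.Helper89.Vol4.Goals

/-! # MP_cd13d2_co, project V47: packet V47-J47 (the planar inequality) -/

set_option autoImplicit false

namespace Pool.Agent.Helper26.Vol4.PkJ47

open Set Pool.Agent.Helper89.Vol4

/-- first case, reduction to one variable -/
theorem caseA {N k M g1 g2 S : ℝ} (hN0 : 0 ≤ N) (hN1 : N ≤ 1 / 2) (hk : 0 ≤ k) (hg1 : 0 ≤ g1)
    (h1 : (k + N) ^ 2 + M ^ 2 ≤ 3 / 4)
    (h3 : S ^ 2 + g1 ^ 2 + g2 ^ 2 + 4 * N ^ 2 + 4 * N * g1 ≤ 3)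
    (h4 : √(3 / 4 - N ^ 2) * g2 ≤ N * g1) :
    k * g2 + M * g1 + N * S ≤ √(3 / 4 - N ^ 2) * g1 + N * √(3 - (g1 + 2 * N) ^ 2) := by
  set M0 : ℝ := √(3 / 4 - N ^ 2) with hM0
  have hpos : 0 < 3 / 4 - N ^ 2 := by nlinarith
  have hM0pos : 0 < M0 := Real.sqrt_pos.2 hpos
  have hM0sq : M0 ^ 2 = 3 / 4 - N ^ 2 := Real.sq_sqrt hpos.le
  have hkN : 0 ≤ k * N := mul_nonneg hk hN0
  have hMsq : M ^ 2 ≤ M0 ^ 2 - 2 * (k * N) := by nlinarith [sq_nonneg k]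
  have hb : 0 ≤ M0 ^ 2 - k * N := by nlinarith [sq_nonneg M]
  have hMM : M * M0 ≤ M0 ^ 2 - k * N := by
    refine abs_le_of_sq_le_sq' ?_ hb |>.2
    have h5 : (M * M0) ^ 2 ≤ (M0 ^ 2 - 2 * (k * N)) * M0 ^ 2 := by
      rw [mul_pow]
      exact mul_le_mul_of_nonneg_right hMsq (sq_nonneg _)
    nlinarith [sq_nonneg (k * N)]
  have h6 : k * g2 + M * g1 ≤ M0 * g1 := by
    have h7 : k * (M0 * g2) ≤ k * (N * g1) := mul_le_mul_of_nonneg_left h4 hk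
    have h8 : M * M0 * g1 ≤ (M0 ^ 2 - k * N) * g1 := mul_le_mul_of_nonneg_right hMM hg1
    have h9 : (k * g2 + M * g1) * M0 ≤ (M0 * g1) * M0 := by nlinarith
    exact le_of_mul_le_mul_right h9 hM0pos
  have h10 : S ≤ √(3 - (g1 + 2 * N) ^ 2) := by
    apply Real.le_sqrt_of_sq_le
    nlinarith [sq_nonneg g2]
  have h11 := mul_le_mul_of_nonneg_left h10 hN0
  linarith

/-- first case, the function of one variable -/
theorem caseA2 {N g : ℝ} (hN : 0 ≤ N) (hN2 : N ^ 2 ≤ 1 / 8) (hg : 0 ≤ g) (hg1 : g ≤ 1)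
    (hA : 0 ≤ 3 - (g + 2 * N) ^ 2) :
    (N ≤ 29 / 100 → √(3 / 4 - N ^ 2) * g + N * √(3 - (g + 2 * N) ^ 2) ≤ f4 N) ∧
    (29 / 100 ≤ N → √(3 / 4 - N ^ 2) * g + N * √(3 - (g + 2 * N) ^ 2) ≤ 1.03) := by
  have hM : 0 ≤ 3 / 4 - N ^ 2 := by linarith
  set M := √(3 / 4 - N ^ 2) with hMd
  have hM0 : 0 ≤ M := Real.sqrt_nonneg _
  have hM2 : M ^ 2 = 3 / 4 - N ^ 2 := Real.sq_sqrt hM
  set a := √(3 - (g + 2 * N) ^ 2) with had
  have ha0 : 0 ≤ a := Real.sqrt_nonneg _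
  have ha2 : a ^ 2 = 3 - (g + 2 * N) ^ 2 := Real.sq_sqrt hA
  constructor
  · intro hN3
    have hB : 1 / 2 ≤ 3 - (1 + 2 * N) ^ 2 := by nlinarith
    have hf : f4 N = M + N * √(3 - (1 + 2 * N) ^ 2) := rfl
    rw [hf]
    set b := √(3 - (1 + 2 * N) ^ 2) with hbd
    have hb2 : b ^ 2 = 3 - (1 + 2 * N) ^ 2 := Real.sq_sqrt (by linarith)
    have hb0 : 0 < b := Real.sqrt_pos.2 (by linarith)
    have hba : b ≤ a := Real.sqrt_le_sqrt (by nlinarith)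
    have h1 : N * (1 + 2 * N) ≤ M * b := by
      refine abs_le_of_sq_le_sq' ?_ (by positivity) |>.2
      have h2 : (M * b) ^ 2 = (3 / 4 - N ^ 2) * (3 - (1 + 2 * N) ^ 2) := by
        rw [mul_pow, hM2, hb2]
      rw [h2]
      have h3 : (N * (1 + 2 * N)) ^ 2 ≤ (29 / 100 * (1 + 2 * (29 / 100))) ^ 2 := by
        gcongr
      have h4 : (3 / 4 - (29 / 100) ^ 2) * (3 - (1 + 2 * (29 / 100)) ^ 2) ≤
          (3 / 4 - N ^ 2) * (3 - (1 + 2 * N) ^ 2) := by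
        have h5 : (3 / 4 - (29 / 100 : ℝ) ^ 2) ≤ 3 / 4 - N ^ 2 := by nlinarith
        have h6 : (3 - (1 + 2 * (29 / 100 : ℝ)) ^ 2) ≤ 3 - (1 + 2 * N) ^ 2 := by nlinarith
        exact mul_le_mul h5 h6 (by norm_num) hM
      have h5 : (29 / 100 * (1 + 2 * (29 / 100 : ℝ))) ^ 2 ≤
          (3 / 4 - (29 / 100 : ℝ) ^ 2) * (3 - (1 + 2 * (29 / 100)) ^ 2) := by norm_num
      linarith
    have h2 : (a - b) * (2 * b) ≤ (1 - g) * (2 + 4 * N) := by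
      have h3 : (a - b) * (a + b) = (1 - g) * (1 + g + 4 * N) := by
        linear_combination ha2 - hb2
      have h4 : (a - b) * (2 * b) ≤ (a - b) * (a + b) :=
        mul_le_mul_of_nonneg_left (by linarith) (by linarith)
      have h5 : (1 - g) * (1 + g + 4 * N) ≤ (1 - g) * (2 + 4 * N) :=
        mul_le_mul_of_nonneg_left (by linarith) (by linarith)
      linarith
    have h3 : N * (a - b) * b ≤ (1 - g) * M * b := by
      have h4 : N * ((a - b) * (2 * b)) ≤ N * ((1 - g) * (2 + 4 * N)) :=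
        mul_le_mul_of_nonneg_left h2 hN
      have h5 : (1 - g) * (N * (1 + 2 * N)) ≤ (1 - g) * (M * b) :=
        mul_le_mul_of_nonneg_left h1 (by linarith)
      nlinarith
    have h4 := le_of_mul_le_mul_right h3 hb0
    linarith
  · intro hN3
    have h1 : (M * (g + 2 * N) + N * a) ^ 2 ≤ 9 / 4 := by
      have h2 : (M * (g + 2 * N) + N * a) ^ 2 + (M * a - N * (g + 2 * N)) ^ 2 =
          (M ^ 2 + N ^ 2) * ((g + 2 * N) ^ 2 + a ^ 2) := by ring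
      have h3 : (M ^ 2 + N ^ 2) * ((g + 2 * N) ^ 2 + a ^ 2) = 9 / 4 := by
        rw [hM2, ha2]; ring
      nlinarith [sq_nonneg (M * a - N * (g + 2 * N))]
    have h2 : M * (g + 2 * N) + N * a ≤ 3 / 2 := by
      refine abs_le_of_sq_le_sq' ?_ (by norm_num) |>.2
      exact h1.trans (by norm_num)
    have h3 : 0.236 ≤ N * M := by
      refine abs_le_of_sq_le_sq' ?_ (by positivity) |>.2
      rw [mul_pow, hM2]
      have h4 : (29 / 100) ^ 2 ≤ N ^ 2 := by gcongr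
      nlinarith
    linarith

/-- second case -/
theorem caseB {N k M g1 g2 S : ℝ} (hN0 : 0 ≤ N) (hN2 : N ^ 2 ≤ 1 / 8) (hg1 : 0 ≤ g1)
    (hg2 : 0 ≤ g2) (h1 : (k + N) ^ 2 + M ^ 2 ≤ 3 / 4) (h2 : g1 ^ 2 + g2 ^ 2 ≤ 1)
    (h3 : S ^ 2 + g1 ^ 2 + g2 ^ 2 + 4 * N ^ 2 + 4 * N * g1 ≤ 3)
    (h4 : 2 * N * g1 ≤ √3 * g2) : k * g2 + M * g1 + N * S ≤ 1.04 := by
  obtain ⟨r, hr⟩ : ∃ r, r = √(3 : ℝ) := ⟨_, rfl⟩
  rw [← hr] at h4
  have hr0 : 0 ≤ r := hr ▸ Real.sqrt_nonneg _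
  have hr2 : r ^ 2 = 3 := by rw [hr]; exact Real.sq_sqrt (by norm_num)
  have hrh : r ≤ 1.7321 := by nlinarith
  have hN1 : N ≤ 0.3536 := by nlinarith
  obtain ⟨G, hG⟩ : ∃ G, G = √(g1 ^ 2 + g2 ^ 2) := ⟨_, rfl⟩
  have hG0 : 0 ≤ G := hG ▸ Real.sqrt_nonneg _
  have hG2 : G ^ 2 = g1 ^ 2 + g2 ^ 2 := by rw [hG]; exact Real.sq_sqrt (by positivity)
  have hG1 : G ≤ 1 := by nlinarith
  have cs : (k + N) * g2 + M * g1 ≤ 1 / 2 * (r * G) := by
    have e : ((k + N) * g2 + M * g1) ^ 2 ≤ (1 / 2 * (r * G)) ^ 2 := by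
      have e1 : (1 / 2 * (r * G)) ^ 2 = 3 / 4 * (g1 ^ 2 + g2 ^ 2) := by
        rw [mul_pow, mul_pow, hr2, hG2]; ring
      have e2 : ((k + N) * g2 + M * g1) ^ 2 + ((k + N) * g1 - M * g2) ^ 2 =
          ((k + N) ^ 2 + M ^ 2) * (g1 ^ 2 + g2 ^ 2) := by ring
      have e3 := mul_le_mul_of_nonneg_right h1 (by positivity : 0 ≤ g1 ^ 2 + g2 ^ 2)
      rw [e1]
      linarith [sq_nonneg ((k + N) * g1 - M * g2)]
    exact le_of_abs_le (abs_le_of_sq_le_sq e (by positivity))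
  have hS' : S ≤ 1 / 2 * (4 - G ^ 2 - 4 * N ^ 2 - 4 * N * g1) := by
    rw [hG2]
    linarith [sq_nonneg (S - 1)]
  have hNS := mul_le_mul_of_nonneg_left hS' hN0
  have ha : 0 ≤ N * g1 := mul_nonneg hN0 hg1
  have hg : 1.1546 * (N * g1) ≤ g2 := by
    have := mul_le_mul_of_nonneg_right hrh hg2
    linarith
  have hrG := mul_le_mul_of_nonneg_right hrh hG0
  have hNG : 0 ≤ N * (1 - G) := mul_nonneg hN0 (by linarith)
  have hq : 2.8 * N * G ≤ g2 + 2 * (N * g1) := by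
    have e : (2.8 * N * G) ^ 2 ≤ (g2 + 2 * (N * g1)) ^ 2 := by
      have e1 : (g2 + 2 * (N * g1)) ^ 2 - (2.8 * N * G) ^ 2 =
          (1 - 7.84 * N ^ 2) * g2 ^ 2 + 4 * ((N * g1) * (g2 - 1.1546 * (N * g1))) +
            (4 * 1.1546 + 4 - 7.84) * (N * g1) ^ 2 := by
        rw [mul_pow (2.8 * N), hG2]; ring
      have e2 : 0 ≤ (1 - 7.84 * N ^ 2) * g2 ^ 2 :=
        mul_nonneg (by linarith) (sq_nonneg _)
      have e3 : 0 ≤ (N * g1) * (g2 - 1.1546 * (N * g1)) := mul_nonneg ha (by linarith)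
      have e4 : 0 ≤ (4 * 1.1546 + 4 - 7.84) * (N * g1) ^ 2 :=
        mul_nonneg (by norm_num) (sq_nonneg (N * g1))
      linarith only [e1, e2, e3, e4]
    exact le_of_abs_le (abs_le_of_sq_le_sq e (by positivity))
  have hNq := mul_le_mul_of_nonneg_left hq hN0
  have c1 : 0 ≤ (1 - G) * (0.86605 - 2.8 * N ^ 2 - 1 / 2 * N * (1 + G)) := by
    refine mul_nonneg (by linarith) ?_
    have : N * G ≤ N := by linarith
    linarith
  have c2 := mul_nonneg (by linarith : 0 ≤ 2 * N + 3.6692) (sq_nonneg (N - 0.2173))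
  linarith only [cs, hNS, hNq, hrG, c1, c2, hN0, hN1]

theorem thm (hn : G_NUM4) : G_J47 := by
  intro C hC N k M g1 g2 S hN0 hN2 hk hM hg1 hg2 hS hkM hg hSS
  have hC1 : (1.04 : ℝ) ≤ C := by
    have a := hn.2.1
    have b := hC (224 / 1000) ⟨by norm_num, by norm_num⟩
    have c : (1.04 : ℝ) < 1.049448 := by norm_num
    linarith
  have hN1 : N ≤ 1 / 2 := by nlinarith
  have hg1' : g1 ≤ 1 := by nlinarith [sq_nonneg g2, sq_nonneg (g1 - 1)]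
  by_cases hc : √(3 / 4 - N ^ 2) * g2 ≤ N * g1
  · have a := caseA hN0 hN1 hk hg1 hkM hSS hc
    have hA : 0 ≤ 3 - (g1 + 2 * N) ^ 2 := by nlinarith [sq_nonneg S, sq_nonneg g2]
    have b := caseA2 hN0 hN2 hg1 hg1' hA
    rcases le_total N (29 / 100) with h | h
    · exact (a.trans (b.1 h)).trans (hC N ⟨hN0, h.trans (by norm_num)⟩)
    · exact (a.trans (b.2 h)).trans (le_trans (by norm_num) hC1)
  · push Not at hc
    have hs : √(3 / 4 - N ^ 2) ≤ √3 / 2 := by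
      rw [show √3 / 2 = √(3 / 4) by
        rw [Real.sqrt_div (by norm_num), show (4 : ℝ) = 2 ^ 2 by norm_num,
          Real.sqrt_sq (by norm_num)]]
      exact Real.sqrt_le_sqrt (by nlinarith [sq_nonneg N])
    have hx : 2 * N * g1 ≤ √3 * g2 := by
      have := mul_le_mul_of_nonneg_right hs hg2
      linarith
    exact (caseB hN0 hN2 hg1 hg2 hkM hg hSS hx).trans hC1

end Pool.Agent.Helper26.Vol4.PkJ47
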